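import Pool.Agent.H.MP_11e589.D
import Pool.Agent.H.MP_35c8d5.D

namespace Pool.Agent.H.MP_d900b7

open Filter Topology Set Finset MP_ec23a5

variable {K : Type} [TopologicalSpace K] [CompactSpace K] [T2Space K]

theorem fac {n : ℕ} (f : Fin n → C(K, ℝ)) (μ : Fin n → C(K, ℝ) →ₗ[ℝ] ℝ) {a b : ℝ} (a0 : 0 ≤ a)
    (b0 : 0 ≤ b) (h1 : ∀ i, ‖f i‖ ≤ a) (h2 : ∀ i h, |μ i h| ≤ b * ‖h‖)
    (h3 : ∀ ω h, ∑ i, μ i h * r i ω ≤ b * ‖h‖) (h4 : ∀ i, μ i (f i) = 1) :
    (n : ℝ) ≤ √n * (2 * (a * b)) := by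
  refine le_of_forall_pos_le_add fun ε hε => ?_
  obtain ⟨η, η0, hη⟩ : ∃ η > 0, n * (b * η) ≤ ε := ⟨ε / (n * b + 1), by positivity, by
    rw [← mul_assoc, mul_div_assoc', div_le_iff₀ (by positivity)]
    nlinarith⟩
  have o : ∀ x : K, IsOpen {y | ∀ i, |f i y - f i x| < η} := fun x => by
    simp only [ofPred_forall]
    exact isOpen_iInter_of_finite fun i => isOpen_lt (by fun_prop) continuous_const
  obtain ⟨t, ht⟩ := isCompact_univ.elim_finite_subcover _ o fun x _ =>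
    mem_iUnion.2 ⟨x, fun _ => by simpa⟩
  obtain ⟨ψ, hψ⟩ := PartitionOfUnity.exists_isSubordinate isClosed_univ
    (fun k : t => {y | ∀ i, |f i y - f i k| < η}) (fun k => o k) (ht.trans_eq (biUnion_eq_iUnion _ _))
  have s1 : ∀ x, ∑ k, ψ k x = 1 := fun x =>
    finsum_eq_sum_of_fintype (fun k => ψ k x) ▸ ψ.sum_eq_one (mem_univ x)
  have s2 : ∀ (c : t → K → ℝ) (d : ℝ) x, (∀ k, ψ k x ≠ 0 → |c k x| ≤ d) →
      |∑ k, c k x * ψ k x| ≤ d := fun c d x h => by
    refine (abs_sum_le_sum_abs _ _).trans ((sum_le_sum fun k _ => (?_ : _ ≤ d * ψ k x)).trans_eq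
      (by rw [← mul_sum, s1, mul_one]))
    rw [abs_mul, abs_of_nonneg (ψ.nonneg k x)]
    by_cases e : ψ k x = 0
    · simp [e]
    · exact mul_le_mul_of_nonneg_right (h k e) (ψ.nonneg k x)
  have k1 : ∀ i, 1 ≤ ∑ k : t, f i k * μ i (ψ k) + b * η := fun i => by
    have := (le_abs_self _).trans ((h2 i (f i - ∑ k : t, f i k • ψ k)).trans
      (mul_le_mul_of_nonneg_left ((ContinuousMap.norm_le _ η0.le).2 fun x => by
        have := s2 (fun k x => f i x - f i k) η x fun k h => (hψ k (subset_tsupport _ h) i).le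
        simp only [sub_mul, sum_sub_distrib, ← mul_sum, s1, mul_one] at this
        simpa using this) b0))
    simp only [map_sub, map_sum, map_smul, h4, smul_eq_mul] at this
    linarith
  have k2 : ∀ ω, ∑ k : t, |∑ i, μ i (ψ k) * r i ω| ≤ b := fun ω => by
    have := (h3 ω (∑ k : t, (SignType.sign (∑ i, μ i (ψ k) * r i ω) : ℝ) • ψ k)).trans
      (mul_le_of_le_one_right b0 ((ContinuousMap.norm_le _ zero_le_one).2 fun x => by
        simpa using s2 (fun k _ => (SignType.sign (∑ i, μ i (ψ k) * r i ω) : ℝ)) 1 x fun k _ => by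
          rcases lt_trichotomy (∑ i, μ i (ψ k) * r i ω) 0 with h | h | h <;> simp [h]))
    simp only [map_sum, map_smul, smul_eq_mul, sum_mul, mul_assoc] at this
    rw [sum_comm] at this
    simpa only [← mul_sum, sign_mul_self] using this
  have k3 : ∑ k : t, √(∑ i, μ i (ψ k) ^ 2) ≤ 2 * b := by
    have := (sum_le_sum fun (k : t) (_ : k ∈ Finset.univ) => MP_35c8d5.kh n fun i => μ i (ψ k)).trans
      (sum_comm.trans_le (sum_le_sum fun ω _ => k2 ω))
    rw [← mul_sum, sum_const, nsmul_eq_mul, card_univ] at this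
    have c : (0 : ℝ) < Fintype.card (Fin n → Bool) := by positivity
    nlinarith [mul_nonneg c.le b0]
  have k4 : ∀ k : t, ∑ i, f i k * μ i (ψ k) ≤ √n * a * √(∑ i, μ i (ψ k) ^ 2) := fun k => by
    refine (Real.sum_mul_le_sqrt_mul_sqrt _ _ _).trans (mul_le_mul_of_nonneg_right ?_ (by positivity))
    rw [← Real.sqrt_sq a0, ← Real.sqrt_mul n.cast_nonneg]
    exact Real.sqrt_le_sqrt ((sum_le_sum fun i _ => sq_le_sq' (abs_le.1
      (((f i).norm_coe_le_norm k).trans (h1 i))).1 (abs_le.1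
      (((f i).norm_coe_le_norm k).trans (h1 i))).2).trans_eq (by simp))
  have := sum_le_sum fun i (_ : i ∈ Finset.univ) => k1 i
  rw [sum_add_distrib, sum_comm] at this
  have k5 := sum_le_sum fun k (_ : k ∈ Finset.univ) => k4 k
  rw [← mul_sum] at k5
  simp only [sum_const, card_univ, Fintype.card_fin, nsmul_eq_mul, mul_one] at this
  nlinarith [mul_le_mul_of_nonneg_left k3 (show 0 ≤ √n * a by positivity)]

theorem main [Infinite K] (C : ℝ) :
    ∃ (Y : Type) (_ : NormedAddCommGroup Y) (_ : NormedSpace ℝ Y),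
      Nonempty (C(K, ℝ) ≃L[ℝ] Y) ∧ ∀ T : Y ≃L[ℝ] C(K, ℝ),
        C < ‖(T : Y →L[ℝ] C(K, ℝ))‖ * ‖(T.symm : C(K, ℝ) →L[ℝ] Y)‖ := by
  classical
  obtain ⟨n, hn⟩ := exists_nat_gt ((2 * |C|) ^ 2)
  obtain ⟨t, ht⟩ : ∃ t : Fin n → K, t.Injective :=
    ⟨_, (Infinite.natEmbedding K).injective.comp Fin.val_injective⟩
  have : ∀ i, ∃ g : C(K, ℝ), (∀ j, g (t j) = if j = i then 1 else 0) ∧ ‖g‖ ≤ 1 := fun i => by
    obtain ⟨g, g0, g1, g2⟩ := exists_continuous_zero_one_of_isClosed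
      (s := t '' {i}ᶜ) (t := {t i}) (toFinite _).isClosed isClosed_singleton (by simp [ht.eq_iff])
    refine ⟨g, fun j => ?_, (ContinuousMap.norm_le _ zero_le_one).2 fun x =>
      abs_le.2 ⟨by linarith [(g2 x).1], (g2 x).2⟩⟩
    split_ifs with h
    exacts [g1 (by simp [h]), g0 ⟨j, h, rfl⟩]
  choose g g1 g2 using this
  have r1 : ∀ (i : Fin n) ω, |r i ω| = 1 := fun i ω => by unfold r; split_ifs <;> simp
  obtain ⟨A, hA⟩ : ∃ A : (Fin n → Bool) → C(K, ℝ) →L[ℝ] (Fin n → ℝ) × ℝ × C(K, ℝ), ∀ ω f, A ω f =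
      (fun i => f (t i), ∑ i, f (t i) * r i ω, f - ∑ i, f (t i) • g i) :=
    ⟨fun ω => (ContinuousLinearMap.pi fun i => ContinuousMap.evalCLM ℝ (t i)).prod
      ((∑ i, r i ω • ContinuousMap.evalCLM ℝ (t i)).prod (.id ℝ _ -
        ∑ i, (ContinuousMap.evalCLM ℝ (t i)).smulRight (g i))), fun ω f => by simp [mul_comm]⟩
  have s : ∀ (f : C(K, ℝ)) c, (∀ i, |f (t i)| ≤ c) → ‖∑ i, f (t i) • g i‖ ≤ n * c := fun f c h =>
    (norm_sum_le_of_le _ (n := fun _ => c) fun i _ => (norm_smul _ _).trans_le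
      ((mul_le_of_le_one_right (norm_nonneg _) (g2 i)).trans (h i))).trans_eq (by simp)
  have a1 : ∀ ω f i, |f (t i)| ≤ ‖A ω f‖ := fun ω f i => by
    rw [hA]; exact (norm_le_pi_norm (fun i => f (t i)) i).trans (norm_fst_le (_, _))
  obtain ⟨Y, _, _, E, e1, e2⟩ := MP_11e589.ren A (C := n + 1) (c := n + 1) (by positivity)
    (by positivity) (fun ω f => by
      have := norm_nonneg f
      have := mul_nonneg n.cast_nonneg this
      rw [hA]
      refine max_le ((pi_norm_le_iff_of_nonneg (by positivity)).2 fun i =>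
        (f.norm_coe_le_norm _).trans (by linarith)) (max_le ?_ ((norm_sub_le _ _).trans ?_))
      · refine (norm_sum_le_of_le Finset.univ (f := fun i => f (t i) * r i ω)
          (n := fun _ => ‖f‖) fun i _ => ?_).trans (by simp; linarith)
        simpa [r1] using f.norm_coe_le_norm (t i)
      · linarith [s f _ fun i => f.norm_coe_le_norm (t i)]) (fun _ => true) fun f => by
      have := s f _ (a1 (fun _ => true) f)
      have k : ‖f - ∑ i, f (t i) • g i‖ ≤ ‖A (fun _ => true) f‖ := by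
        rw [hA]; exact (norm_snd_le (_, _)).trans (norm_snd_le (_, _, _))
      linarith [norm_sub_norm_le f (∑ i, f (t i) • g i)]
  refine ⟨Y, _, _, ⟨E⟩, fun T => ?_⟩
  have k : ∀ h, ‖E (E.symm (T.symm h))‖ ≤ ‖(T.symm : C(K, ℝ) →L[ℝ] Y)‖ * ‖h‖ := fun h => by
    simpa using (T.symm : C(K, ℝ) →L[ℝ] Y).le_opNorm h
  have := fac (fun i => T (E (g i))) (fun i => (ContinuousMap.evalCLM ℝ (t i)).toLinearMap ∘ₗ
    (T.symm.trans E.symm).toLinearMap) (norm_nonneg (T : Y →L[ℝ] C(K, ℝ)))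
    (norm_nonneg (T.symm : C(K, ℝ) →L[ℝ] Y))
    (fun i => (T : Y →L[ℝ] C(K, ℝ)).unit_le_opNorm _ (e2 _ _ zero_le_one fun ω => by
      rw [hA]
      refine max_le ((pi_norm_le_iff_of_nonneg zero_le_one).2 fun j =>
        ((g i).norm_coe_le_norm _).trans (g2 i)) (max_le ?_ ?_) <;> simp [g1, r1]))
    (fun i h => (a1 (fun _ => true) _ i).trans ((e1 _ _).trans (k h)))
    (fun ω h => le_trans (by
      rw [hA]
      exact (le_abs_self _).trans (le_max_of_le_right (le_max_left _ _)))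
      ((e1 ω (E.symm (T.symm h))).trans (k h))) fun i => by simp [g1]
  have p : 2 * |C| < √n := Real.lt_sqrt_of_sq_lt hn
  have q := Real.mul_self_sqrt (n.cast_nonneg (α := ℝ))
  by_contra c
  nlinarith [le_abs_self C, abs_nonneg C]

end Pool.Agent.H.MP_d900b7
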